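import Mathlib
import Pool.Prelude.Def_F_cef2bd1b
import Pool.Agent.Helper274.CT.Good

set_option autoImplicit false

/-!
Decompositions of the unit `n`-cube into cubes that are built by straight cuts from pieces that are
single cubes or decompositions (of any shape) without a side whose numerator is divisible by
`n + 1`.  The growth of the cutoff for every class of decompositions between the guillotine ones
and these.
-/

open Filter Topology N0a8789b9 Pool.Agent.H274C Pool.Agent.H17HN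

namespace Pool.Agent.Results.MP_9df71a_co.BlockCutModel

/-- `c` is the cutoff of the property `P n` of numbers: it holds for all `k ≥ c` and, unless
`c = 0`, fails at `c - 1` -/
def CutoffOf (P : ℕ → ℕ → Prop) (n c : ℕ) : Prop :=
  (∀ k, c ≤ k → P n k) ∧ (c = 0 ∨ ¬P n (c - 1))

theorem not_consecutive {n a : ℕ} (hn : 1 ≤ n) (h1 : a ≡ 1 [MOD (n + 1)])
    (h2 : a + 1 ≡ 1 [MOD (n + 1)]) : False := by
  have h3 : a ≡ a + 1 [MOD (n + 1)] := h1.trans h2.symm
  have h4 := (Nat.modEq_iff_dvd' (by omega : a ≤ a + 1)).mp h3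
  have h5 : a + 1 - a = 1 := by omega
  rw [h5, Nat.dvd_one] at h4
  omega

/-- The lower bound for the cutoff. -/
theorem lower_P {P : ℕ → ℕ → Prop} (hP : ∀ n k, P n k → GoodAdmissible n k)
    {n K c : ℕ} (hK : 1 ≤ K) (hn : 34000 * K ^ 6 ≤ n) (hp : (n + 1).Prime)
    (hc : CutoffOf P n c) : K ^ n ≤ c := by
  by_contra hlt
  rw [not_le] at hlt
  have hK6 : 1 ≤ K ^ 6 := Nat.one_le_pow _ _ hK
  have key : ∀ k, c ≤ k → k ≤ K ^ n → k ≡ 1 [MOD (n + 1)] := by
    intro k hck hk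
    obtain ⟨L, hL, hLk⟩ := hP n k (hc.1 k hck)
    rw [← hLk] at hk ⊢
    exact good_count hK hn L hL hk hp
  exact not_consecutive (by omega) (key c le_rfl hlt.le) (key (c + 1) (by omega) (by omega))

/-- A small cutoff forces a decomposition that is not good. -/
theorem notGood_of_small {n K c : ℕ} (hK : 1 ≤ K) (hn : 34000 * K ^ 6 ≤ n) (hp : (n + 1).Prime)
    (hc : IsCutoff n c) (hlt : c < K ^ n) :
    ∃ k ≤ K ^ n, ∃ T : Fin k → Cube n, IsTiling T ∧
      ¬ Good (fun _ => 0) (fun _ => 1) (List.ofFn T) := by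
  by_contra hcon
  push Not at hcon
  have hK6 : 1 ≤ K ^ 6 := Nat.one_le_pow _ _ hK
  have key : ∀ k, c ≤ k → k ≤ K ^ n → k ≡ 1 [MOD (n + 1)] := by
    intro k hck hk
    obtain ⟨T, hT⟩ := hc.1 k hck
    have h := good_count hK hn (List.ofFn T) (hcon k hk T hT) (by simpa using hk) hp
    simpa using h
  exact not_consecutive (by omega) (key c le_rfl hlt.le) (key (c + 1) (by omega) (by omega))

theorem exists_K {n : ℕ} (hn : 2176000 ^ 7 ≤ n) : ∃ K : ℕ, 1 ≤ K ∧ 34000 * K ^ 6 ≤ n ∧ n ≤ K ^ 7 := by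
  set x : ℝ := (n : ℝ) ^ ((1 : ℝ) / 7) with hx
  have hn0 : (0 : ℝ) ≤ n := Nat.cast_nonneg n
  have hx7 : x ^ 7 = n := by
    rw [hx, ← Real.rpow_natCast, ← Real.rpow_mul hn0]
    norm_num
  have hx0 : 0 ≤ x := Real.rpow_nonneg hn0 _
  have hxl : (2176000 : ℝ) ≤ x := by
    by_contra h
    rw [not_le] at h
    have h1 : x ^ 7 < (2176000 : ℝ) ^ 7 := pow_lt_pow_left₀ h hx0 (by norm_num)
    have h2 : ((2176000 : ℝ)) ^ 7 ≤ n := by exact_mod_cast hn
    linarith
  refine ⟨⌊x⌋₊ + 1, by omega, ?_, ?_⟩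
  · have h1 : ((⌊x⌋₊ + 1 : ℕ) : ℝ) ≤ 2 * x := by
      push_cast
      have := Nat.floor_le hx0
      linarith
    have h2 : (((34000 * (⌊x⌋₊ + 1) ^ 6 : ℕ)) : ℝ) ≤ n := by
      have h3 : ((⌊x⌋₊ + 1 : ℕ) : ℝ) ^ 6 ≤ (2 * x) ^ 6 :=
        pow_le_pow_left₀ (Nat.cast_nonneg _) h1 6
      have h4 : (2 * x) ^ 6 = 64 * x ^ 6 := by ring
      have h5 : (2176000 : ℝ) * x ^ 6 ≤ x ^ 7 := by
        have : x ^ 7 = x * x ^ 6 := by ring
        rw [this]
        exact mul_le_mul_of_nonneg_right hxl (by positivity)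
      rw [Nat.cast_mul, Nat.cast_pow, ← hx7]
      norm_num at h3 h4 ⊢
      nlinarith
    exact_mod_cast h2
  · have h1 : x ≤ ((⌊x⌋₊ + 1 : ℕ) : ℝ) := by
      push_cast
      exact (Nat.lt_floor_add_one x).le
    have h2 : (n : ℝ) ≤ (((⌊x⌋₊ + 1) ^ 7 : ℕ) : ℝ) := by
      rw [Nat.cast_pow, ← hx7]
      exact pow_le_pow_left₀ hx0 h1 7
    exact_mod_cast h2

theorem upper_limit_P {P : ℕ → ℕ → Prop} (hP : ∀ n k, P n k → GoodAdmissible n k)
    (c : ℕ → ℕ) (hc : ∀ n, 0 < n → CutoffOf P n (c n)) :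
    ∃ᶠ n : ℕ in atTop, (1 / 7 : ℝ) * (n * Real.log n) ≤ Real.log (c n) := by
  rw [frequently_atTop]
  intro a
  obtain ⟨p, hpl, hp⟩ := Nat.exists_infinite_primes (max a (2176000 ^ 7) + 1)
  refine ⟨p - 1, ?_, ?_⟩
  · have := le_max_left a (2176000 ^ 7)
    omega
  · set n := p - 1 with hn
    have hp1 : p = n + 1 := by omega
    have hnl : 2176000 ^ 7 ≤ n := by
      have := le_max_right a (2176000 ^ 7)
      omega
    have hn0 : 0 < n := lt_of_lt_of_le (by norm_num) hnl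
    obtain ⟨K, hK, h1, h2⟩ := exists_K hnl
    have h3 := lower_P hP hK h1 (hp1 ▸ hp) (hc n hn0)
    have hnr : (0 : ℝ) < n := by exact_mod_cast hn0
    have hKr : (0 : ℝ) < K := by exact_mod_cast hK
    have h4 : Real.log n ≤ 7 * Real.log K := by
      have : (n : ℝ) ≤ (K : ℝ) ^ 7 := by exact_mod_cast h2
      have h5 := Real.log_le_log hnr this
      rw [Real.log_pow] at h5
      exact_mod_cast h5
    have h6 : (n : ℝ) * Real.log K ≤ Real.log (c n) := by
      have h7 : ((K : ℝ)) ^ n ≤ c n := by exact_mod_cast h3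
      have h8 := Real.log_le_log (by positivity) h7
      rwa [Real.log_pow] at h8
    nlinarith

theorem cutoff_le {P : ℕ → ℕ → Prop} (hG : ∀ n k, GAdmissible n k → P n k)
    {n A c : ℕ} (hn : 1 ≤ n) (hA : 2 ≤ A) (hg : gg n A = 1)
    (hc : CutoffOf P n c) : c ≤ (2 * A) ^ n := by
  by_contra hlt
  rw [not_le] at hlt
  rcases hc.2 with h0 | hna
  · omega
  · exact hna (hG n _ (gadm_large hn hA hg (c - 1) (by omega)))

theorem cutoff_pos {P : ℕ → ℕ → Prop} (hP : ∀ n k, P n k → GoodAdmissible n k)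
    {n c : ℕ} (hc : CutoffOf P n c) : 1 ≤ c := by
  by_contra h
  have h0 : c = 0 := by omega
  obtain ⟨L, hL, hk⟩ := hP n 0 (hc.1 0 (by omega))
  exact (good_lt hL).2 (List.length_eq_zero_iff.mp hk)

theorem log_cutoff_le {P : ℕ → ℕ → Prop} (hG : ∀ n k, GAdmissible n k → P n k)
    (hP : ∀ n k, P n k → GoodAdmissible n k) {n A c : ℕ} (hn : 1 ≤ n) (hA : 2 ≤ A)
    (hg : gg n A = 1) (hc : CutoffOf P n c) : Real.log c ≤ n * Real.log (2 * A) := by
  have h1 := cutoff_le hG hn hA hg hc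
  have h2 := cutoff_pos hP hc
  have h3 : (0 : ℝ) < c := by exact_mod_cast h2
  have h4 : (c : ℝ) ≤ (2 * (A : ℝ)) ^ n := by exact_mod_cast h1
  calc Real.log c ≤ Real.log ((2 * (A : ℝ)) ^ n) := Real.log_le_log h3 h4
    _ = _ := by rw [Real.log_pow]

theorem exists_cutoff {P : ℕ → ℕ → Prop} (hG : ∀ n k, GAdmissible n k → P n k)
    {n : ℕ} (hn : 1 ≤ n) : ∃ c, CutoffOf P n c := by
  classical
  obtain ⟨c₀, hc₀, _⟩ := exists_gcutoff hn
  have hex : ∃ c : ℕ, ∀ k, c ≤ k → P n k := ⟨c₀, fun k hk => hG n k (hc₀ k hk)⟩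
  refine ⟨Nat.find hex, Nat.find_spec hex, ?_⟩
  by_cases h0 : Nat.find hex = 0
  · exact Or.inl h0
  · right
    intro hadm
    refine Nat.find_min hex (m := Nat.find hex - 1) (by omega) ?_
    intro k hk
    rcases Nat.lt_or_ge k (Nat.find hex) with h | h
    · have : k = Nat.find hex - 1 := by omega
      rw [this]
      exact hadm
    · exact Nat.find_spec hex k h

theorem lower_limit_P {P : ℕ → ℕ → Prop} (hG : ∀ n k, GAdmissible n k → P n k)
    (hP : ∀ n k, P n k → GoodAdmissible n k)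
    (c : ℕ → ℕ) (hc : ∀ n, 0 < n → CutoffOf P n (c n)) (ε : ℝ) (hε : 0 < ε) :
    ∃ᶠ n : ℕ in atTop, Real.log (c n) ≤ ε * (n * Real.log n) := by
  rw [frequently_atTop]
  intro a
  obtain ⟨j, hj⟩ := exists_nat_gt (2 / ε)
  have hj0 : (0 : ℝ) < j := lt_trans (by positivity) hj
  have hj1 : 1 ≤ j := by exact_mod_cast hj0
  obtain ⟨N, hN⟩ := exists_nat_gt (Real.exp (2 * Real.log 2 / ε))
  obtain ⟨l, hl, hlp, A, hA, hAl, hg⟩ := gg_one_seq j hj1 (max a N)
  refine ⟨l, le_trans (le_max_left _ _) hl.le, ?_⟩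
  have hNl : N < l := lt_of_le_of_lt (le_max_right _ _) hl
  have hl0 : (0 : ℝ) < l := by exact_mod_cast hlp.pos
  have hA0 : (0 : ℝ) < A := by
    have : 0 < A := by omega
    exact_mod_cast this
  have h1 := log_cutoff_le hG hP hlp.one_lt.le hA hg (hc l hlp.pos)
  have h2 : (j : ℝ) * Real.log A ≤ Real.log l := by
    rw [← Real.log_pow]
    apply Real.log_le_log (by positivity)
    exact_mod_cast hAl
  have h3 : 2 * Real.log 2 / ε ≤ Real.log l := by
    rw [Real.le_log_iff_exp_le hl0]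
    have : (N : ℝ) < l := by exact_mod_cast hNl
    linarith
  have hlogl : 0 ≤ Real.log l := Real.log_natCast_nonneg l
  have hlogA : 0 ≤ Real.log A := Real.log_natCast_nonneg A
  have h4 : Real.log A ≤ ε / 2 * Real.log l := by
    have h5 : 2 / ε * Real.log A ≤ Real.log l :=
      le_trans (mul_le_mul_of_nonneg_right hj.le hlogA) h2
    have h6 : Real.log A = ε / 2 * (2 / ε * Real.log A) := by field_simp
    rw [h6]
    exact mul_le_mul_of_nonneg_left h5 (by positivity)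
  have h7 : Real.log 2 ≤ ε / 2 * Real.log l := by
    rw [div_le_iff₀ hε] at h3
    linarith
  rw [Real.log_mul (by norm_num) hA0.ne'] at h1
  calc Real.log (c l) ≤ l * (Real.log 2 + Real.log A) := h1
    _ ≤ l * (ε * Real.log l) := by
      apply mul_le_mul_of_nonneg_left _ hl0.le
      linarith
    _ = ε * (l * Real.log l) := by ring

theorem no_limit_P {P : ℕ → ℕ → Prop} (hG : ∀ n k, GAdmissible n k → P n k)
    (hP : ∀ n k, P n k → GoodAdmissible n k)
    (c : ℕ → ℕ) (hc : ∀ n, 0 < n → CutoffOf P n (c n)) :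
    ¬ ∃ γ : ℝ, Tendsto (fun n : ℕ => Real.log (c n) / (n * Real.log n)) atTop (𝓝 γ) := by
  rintro ⟨γ, h⟩
  have hpos : ∀ n : ℕ, 2 ≤ n → 0 < (n : ℝ) * Real.log n := by
    intro n hn
    have h2 : (2 : ℝ) ≤ n := by exact_mod_cast hn
    exact mul_pos (by linarith) (Real.log_pos (by linarith))
  have h1 : γ ≤ 1 / 14 := by
    refine le_of_tendsto_of_frequently h ?_
    have h2 := (lower_limit_P hG hP c hc (1 / 14) (by norm_num)).and_eventually
      (eventually_ge_atTop 2)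
    refine h2.mono ?_
    rintro n ⟨h3, h4⟩
    rw [div_le_iff₀ (hpos n h4)]
    exact h3
  have h2 : 1 / 7 ≤ γ := by
    refine ge_of_tendsto_of_frequently h ?_
    have h2 := (upper_limit_P hP c hc).and_eventually (eventually_ge_atTop 2)
    refine h2.mono ?_
    rintro n ⟨h3, h4⟩
    rw [le_div_iff₀ (hpos n h4)]
    exact h3
  linarith

/-- See the claim file. -/
theorem result :
    (∀ P : ℕ → ℕ → Prop, (∀ n k, GAdmissible n k → P n k) → (∀ n k, P n k → GoodAdmissible n k) →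
      (∃ c : ℕ → ℕ, ∀ n, 0 < n → CutoffOf P n (c n)) ∧
      ∀ c : ℕ → ℕ, (∀ n, 0 < n → CutoffOf P n (c n)) →
        (∀ ε : ℝ, 0 < ε → ∃ᶠ n : ℕ in atTop, Real.log (c n) ≤ ε * (n * Real.log n)) ∧
        (∃ᶠ n : ℕ in atTop, (1 / 7 : ℝ) * (n * Real.log n) ≤ Real.log (c n)) ∧
        ¬ ∃ γ : ℝ, Tendsto (fun n : ℕ => Real.log (c n) / (n * Real.log n)) atTop (𝓝 γ)) ∧
    (∀ n k, GAdmissible n k → GoodAdmissible n k) ∧
    (∀ n K c : ℕ, 1 ≤ K → 34000 * K ^ 6 ≤ n → (n + 1).Prime → IsCutoff n c → c < K ^ n →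
      ∃ k ≤ K ^ n, ∃ T : Fin k → Cube n, IsTiling T ∧
        ¬ Good (fun _ => 0) (fun _ => 1) (List.ofFn T)) ∧
    (∀ n k K : ℕ, 1 ≤ K → 576 * K ^ 6 ≤ n → k ≤ K ^ n →
      ∀ T : Fin k → Cube n, IsTiling T → ∀ q, ∃ r : ℚ, (T q).side = r ∧
        ∀ p : ℕ, p.Prime → 8 * K ^ 2 < p → ¬ p ∣ r.den) := by
  refine ⟨fun P hG hP => ⟨?_, fun c hc => ⟨lower_limit_P hG hP c hc, upper_limit_P hP c hc,
    no_limit_P hG hP c hc⟩⟩, ?_,
    fun n K c hK hn hp hc hlt => notGood_of_small hK hn hp hc hlt,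
    fun n k K hK hn hk T hT q => side_rat hK hn hk T hT q⟩
  · have h : ∀ n : ℕ, ∃ c, 0 < n → CutoffOf P n c := by
      intro n
      rcases Nat.eq_zero_or_pos n with h0 | h0
      · exact ⟨0, fun h => by omega⟩
      · obtain ⟨c, hc⟩ := exists_cutoff hG h0
        exact ⟨c, fun _ => hc⟩
    choose c hc using h
    exact ⟨c, fun n hn => hc n hn⟩
  · rintro n k ⟨L, hL, h⟩
    exact ⟨L, good_of_guillotine hL, h⟩

end Pool.Agent.Results.MP_9df71a_co.BlockCutModel
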