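import Mathlib
import Pool.Prelude.Def_F_cef2bd1b
import Pool.Agent.Helper274.CT.Main
import Pool.Agent.Helper274.CT.Model

set_option autoImplicit false

/-!
Decompositions of the unit `n`-cube in at most `K ^ n` cubes, `n ≥ 576 K ^ 6`: all sides are
rational and no prime above `8 K ^ 2` divides a denominator.  Consequences for the growth of the
cutoff when `n + 1` is prime.
-/

open Filter Topology N0a8789b9 Pool.Agent.H274C Pool.Agent.H17HN

namespace Pool.Agent.Results.MP_9df71a_co.DenominatorRigidity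

theorem count_all {n k K p : ℕ} (hK : 1 ≤ K) (hn : 576 * K ^ 6 ≤ n) (hk : k ≤ K ^ n)
    (hp : p.Prime) (hpK : 8 * K ^ 2 < p) (hpn : (p - 1) ∣ n)
    (T : Fin k → Cube n) (hT : IsTiling T) (s : Fin k → ℚ) (hs : ∀ q, (T q).side = s q) :
    k ≡ 1 + (Finset.univ.filter (fun q => (p : ℤ) ∣ (s q).num)).card [MOD p] := by
  classical
  have h1 := count_one hK hn hk T hT p hp hpK hpn s hs
  have h2 : (Finset.univ.filter (fun q => (p : ℤ) ∣ (s q).num)).card +
      (Finset.univ.filter (fun q => ¬ (p : ℤ) ∣ (s q).num)).card = k := by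
    rw [Finset.card_filter_add_card_filter_not]
    simp
  calc k = (Finset.univ.filter (fun q => ¬ (p : ℤ) ∣ (s q).num)).card +
      (Finset.univ.filter (fun q => (p : ℤ) ∣ (s q).num)).card := by omega
    _ ≡ 1 + (Finset.univ.filter (fun q => (p : ℤ) ∣ (s q).num)).card [MOD p] :=
      Nat.ModEq.add_right _ h1

theorem eight_lt {n K : ℕ} (hK : 1 ≤ K) (hn : 576 * K ^ 6 ≤ n) : 8 * K ^ 2 < n + 1 := by
  have h2 : K ^ 2 ≤ K ^ 6 := Nat.pow_le_pow_right hK (by norm_num)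
  omega

/-- If `n + 1` is prime and no side has a numerator divisible by `n + 1`, the number of cubes is
`1` modulo `n + 1`. -/
theorem modEq_one {n k K : ℕ} (hK : 1 ≤ K) (hn : 576 * K ^ 6 ≤ n) (hk : k ≤ K ^ n)
    (hp : (n + 1).Prime) (T : Fin k → Cube n) (hT : IsTiling T)
    (hnum : ∀ q, ∀ r : ℚ, (T q).side = r → ¬ ((n + 1 : ℕ) : ℤ) ∣ r.num) :
    k ≡ 1 [MOD (n + 1)] := by
  classical
  choose s hs _ using side_rat hK hn hk T hT
  have h1 := count_all hK hn hk hp (eight_lt hK hn) (by simp) T hT s hs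
  have h2 : Finset.univ.filter (fun q => ((n + 1 : ℕ) : ℤ) ∣ (s q).num) = ∅ := by
    rw [Finset.filter_eq_empty_iff]
    intro q _
    exact hnum q (s q) (hs q)
  rw [h2] at h1
  simpa using h1

theorem not_consecutive {n a : ℕ} (hn : 1 ≤ n) (h1 : a ≡ 1 [MOD (n + 1)])
    (h2 : a + 1 ≡ 1 [MOD (n + 1)]) : False := by
  have h3 : a ≡ a + 1 [MOD (n + 1)] := h1.trans h2.symm
  have h4 := (Nat.modEq_iff_dvd' (by omega : a ≤ a + 1)).mp h3
  have h5 : a + 1 - a = 1 := by omega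
  rw [h5, Nat.dvd_one] at h4
  omega

/-- The lower bound in the model. -/
theorem lower_N {n K c : ℕ} (hK : 1 ≤ K) (hn : 576 * K ^ 6 ≤ n) (hp : (n + 1).Prime)
    (hc : IsCutoffN n c) : K ^ n ≤ c := by
  by_contra hlt
  rw [not_le] at hlt
  have hK6 : 1 ≤ K ^ 6 := Nat.one_le_pow _ _ hK
  have key : ∀ k, c ≤ k → k ≤ K ^ n → k ≡ 1 [MOD (n + 1)] := by
    intro k hck hk
    obtain ⟨T, hT, hs⟩ := hc.1 k hck
    refine modEq_one hK hn hk hp T hT ?_
    intro q r hr hdvd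
    obtain ⟨r', hr', hle⟩ := hs q
    have hrr : r = r' := by
      have h := hr.symm.trans hr'
      exact_mod_cast h
    subst hrr
    have hpos : 0 < r := by
      have := (hT.1 q).1
      rw [hr] at this
      exact_mod_cast this
    have h1 := Int.le_of_dvd (Rat.num_pos.mpr hpos) hdvd
    push_cast at h1
    omega
  exact not_consecutive (by omega) (key c le_rfl hlt.le) (key (c + 1) (by omega) (by omega))

/-- The same argument for all decompositions: a small cutoff forces a numerator divisible by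
`n + 1`. -/
theorem exotic_of_small {n K c : ℕ} (hK : 1 ≤ K) (hn : 576 * K ^ 6 ≤ n) (hp : (n + 1).Prime)
    (hc : IsCutoff n c) (hlt : c < K ^ n) :
    ∃ k ≤ K ^ n, ∃ T : Fin k → Cube n, IsTiling T ∧
      ∃ q, ∃ r : ℚ, (T q).side = r ∧ ((n + 1 : ℕ) : ℤ) ∣ r.num := by
  by_contra hcon
  push Not at hcon
  have hK6 : 1 ≤ K ^ 6 := Nat.one_le_pow _ _ hK
  have key : ∀ k, c ≤ k → k ≤ K ^ n → k ≡ 1 [MOD (n + 1)] := by
    intro k hck hk
    obtain ⟨T, hT⟩ := hc.1 k hck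
    exact modEq_one hK hn hk hp T hT (fun q r hr => hcon k hk T hT q r hr)
  exact not_consecutive (by omega) (key c le_rfl hlt.le) (key (c + 1) (by omega) (by omega))

theorem exists_K {n : ℕ} (hn : 36864 ^ 7 ≤ n) : ∃ K : ℕ, 1 ≤ K ∧ 576 * K ^ 6 ≤ n ∧ n ≤ K ^ 7 := by
  set x : ℝ := (n : ℝ) ^ ((1 : ℝ) / 7) with hx
  have hn0 : (0 : ℝ) ≤ n := Nat.cast_nonneg n
  have hx7 : x ^ 7 = n := by
    rw [hx, ← Real.rpow_natCast, ← Real.rpow_mul hn0]
    norm_num
  have hx0 : 0 ≤ x := Real.rpow_nonneg hn0 _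
  have hxl : (36864 : ℝ) ≤ x := by
    by_contra h
    rw [not_le] at h
    have h1 : x ^ 7 < (36864 : ℝ) ^ 7 := pow_lt_pow_left₀ h hx0 (by norm_num)
    have h2 : ((36864 : ℝ)) ^ 7 ≤ n := by exact_mod_cast hn
    linarith
  refine ⟨⌊x⌋₊ + 1, by omega, ?_, ?_⟩
  · have h1 : ((⌊x⌋₊ + 1 : ℕ) : ℝ) ≤ 2 * x := by
      push_cast
      have := Nat.floor_le hx0
      linarith
    have h2 : (((576 * (⌊x⌋₊ + 1) ^ 6 : ℕ)) : ℝ) ≤ n := by
      have h3 : ((⌊x⌋₊ + 1 : ℕ) : ℝ) ^ 6 ≤ (2 * x) ^ 6 :=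
        pow_le_pow_left₀ (Nat.cast_nonneg _) h1 6
      have h4 : (2 * x) ^ 6 = 64 * x ^ 6 := by ring
      have h5 : (36864 : ℝ) * x ^ 6 ≤ x ^ 7 := by
        have : x ^ 7 = x * x ^ 6 := by ring
        rw [this]
        exact mul_le_mul_of_nonneg_right hxl (by positivity)
      rw [Nat.cast_mul, Nat.cast_pow, ← hx7]
      norm_num at h3 h4 ⊢
      nlinarith
    exact_mod_cast h2
  · have h1 : x ≤ ((⌊x⌋₊ + 1 : ℕ) : ℝ) := by
      push_cast
      exact (Nat.lt_floor_add_one x).le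
    have h2 : (n : ℝ) ≤ (((⌊x⌋₊ + 1) ^ 7 : ℕ) : ℝ) := by
      rw [Nat.cast_pow, ← hx7]
      exact pow_le_pow_left₀ hx0 h1 7
    exact_mod_cast h2

theorem upper_limit_N (c : ℕ → ℕ) (hc : ∀ n, 0 < n → IsCutoffN n (c n)) :
    ∃ᶠ n : ℕ in atTop, (1 / 7 : ℝ) * (n * Real.log n) ≤ Real.log (c n) := by
  rw [frequently_atTop]
  intro a
  obtain ⟨p, hpl, hp⟩ := Nat.exists_infinite_primes (max a (36864 ^ 7) + 1)
  refine ⟨p - 1, ?_, ?_⟩
  · have := le_max_left a (36864 ^ 7)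
    omega
  · set n := p - 1 with hn
    have hp1 : p = n + 1 := by omega
    have hnl : 36864 ^ 7 ≤ n := by
      have := le_max_right a (36864 ^ 7)
      omega
    have hn0 : 0 < n := lt_of_lt_of_le (by norm_num) hnl
    obtain ⟨K, hK, h1, h2⟩ := exists_K hnl
    have h3 := lower_N hK h1 (hp1 ▸ hp) (hc n hn0)
    have hnr : (0 : ℝ) < n := by exact_mod_cast hn0
    have hKr : (0 : ℝ) < K := by exact_mod_cast hK
    have h4 : Real.log n ≤ 7 * Real.log K := by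
      have : (n : ℝ) ≤ (K : ℝ) ^ 7 := by exact_mod_cast h2
      have h5 := Real.log_le_log hnr this
      rw [Real.log_pow] at h5
      exact_mod_cast h5
    have h6 : (n : ℝ) * Real.log K ≤ Real.log (c n) := by
      have h7 : ((K : ℝ)) ^ n ≤ c n := by exact_mod_cast h3
      have h8 := Real.log_le_log (by positivity) h7
      rwa [Real.log_pow] at h8
    nlinarith

theorem log_cutoffN_le {n A c : ℕ} (hn : 1 ≤ n) (hA : 2 ≤ A) (hg : gg n A = 1)
    (hc : IsCutoffN n c) : Real.log c ≤ n * Real.log (2 * A) := by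
  have h1 := cutoffN_le hn hA hg hc
  have h2 := cutoffN_pos hc
  have h3 : (0 : ℝ) < c := by exact_mod_cast h2
  have h4 : (c : ℝ) ≤ (2 * (A : ℝ)) ^ n := by exact_mod_cast h1
  calc Real.log c ≤ Real.log ((2 * (A : ℝ)) ^ n) := Real.log_le_log h3 h4
    _ = _ := by rw [Real.log_pow]

theorem lower_limit_N (c : ℕ → ℕ) (hc : ∀ n, 0 < n → IsCutoffN n (c n)) (ε : ℝ) (hε : 0 < ε) :
    ∃ᶠ n : ℕ in atTop, Real.log (c n) ≤ ε * (n * Real.log n) := by
  rw [frequently_atTop]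
  intro a
  obtain ⟨j, hj⟩ := exists_nat_gt (2 / ε)
  have hj0 : (0 : ℝ) < j := lt_trans (by positivity) hj
  have hj1 : 1 ≤ j := by exact_mod_cast hj0
  obtain ⟨N, hN⟩ := exists_nat_gt (Real.exp (2 * Real.log 2 / ε))
  obtain ⟨l, hl, hlp, A, hA, hAl, hg⟩ := gg_one_seq j hj1 (max a N)
  refine ⟨l, le_trans (le_max_left _ _) hl.le, ?_⟩
  have hNl : N < l := lt_of_le_of_lt (le_max_right _ _) hl
  have hl0 : (0 : ℝ) < l := by exact_mod_cast hlp.pos
  have hA0 : (0 : ℝ) < A := by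
    have : 0 < A := by omega
    exact_mod_cast this
  have h1 := log_cutoffN_le hlp.one_lt.le hA hg (hc l hlp.pos)
  have h2 : (j : ℝ) * Real.log A ≤ Real.log l := by
    rw [← Real.log_pow]
    apply Real.log_le_log (by positivity)
    exact_mod_cast hAl
  have h3 : 2 * Real.log 2 / ε ≤ Real.log l := by
    rw [Real.le_log_iff_exp_le hl0]
    have : (N : ℝ) < l := by exact_mod_cast hNl
    linarith
  have hlogl : 0 ≤ Real.log l := Real.log_natCast_nonneg l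
  have hlogA : 0 ≤ Real.log A := Real.log_natCast_nonneg A
  have h4 : Real.log A ≤ ε / 2 * Real.log l := by
    have h5 : 2 / ε * Real.log A ≤ Real.log l :=
      le_trans (mul_le_mul_of_nonneg_right hj.le hlogA) h2
    have h6 : Real.log A = ε / 2 * (2 / ε * Real.log A) := by field_simp
    rw [h6]
    exact mul_le_mul_of_nonneg_left h5 (by positivity)
  have h7 : Real.log 2 ≤ ε / 2 * Real.log l := by
    rw [div_le_iff₀ hε] at h3
    linarith
  rw [Real.log_mul (by norm_num) hA0.ne'] at h1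
  calc Real.log (c l) ≤ l * (Real.log 2 + Real.log A) := h1
    _ ≤ l * (ε * Real.log l) := by
      apply mul_le_mul_of_nonneg_left _ hl0.le
      linarith
    _ = ε * (l * Real.log l) := by ring

theorem no_limit_N (c : ℕ → ℕ) (hc : ∀ n, 0 < n → IsCutoffN n (c n)) :
    ¬ ∃ γ : ℝ, Tendsto (fun n : ℕ => Real.log (c n) / (n * Real.log n)) atTop (𝓝 γ) := by
  rintro ⟨γ, h⟩
  have hpos : ∀ n : ℕ, 2 ≤ n → 0 < (n : ℝ) * Real.log n := by
    intro n hn
    have h2 : (2 : ℝ) ≤ n := by exact_mod_cast hn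
    exact mul_pos (by linarith) (Real.log_pos (by linarith))
  have h1 : γ ≤ 1 / 14 := by
    refine le_of_tendsto_of_frequently h ?_
    have h2 := (lower_limit_N c hc (1 / 14) (by norm_num)).and_eventually (eventually_ge_atTop 2)
    refine h2.mono ?_
    rintro n ⟨h3, h4⟩
    rw [div_le_iff₀ (hpos n h4)]
    exact h3
  have h2 : 1 / 7 ≤ γ := by
    refine ge_of_tendsto_of_frequently h ?_
    have h2 := (upper_limit_N c hc).and_eventually (eventually_ge_atTop 2)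
    refine h2.mono ?_
    rintro n ⟨h3, h4⟩
    rw [le_div_iff₀ (hpos n h4)]
    exact h3
  linarith

/-- See the claim file. -/
theorem result :
    (∀ n k K : ℕ, 1 ≤ K → 576 * K ^ 6 ≤ n → k ≤ K ^ n →
      ∀ T : Fin k → Cube n, IsTiling T → ∀ q, ∃ r : ℚ, (T q).side = r ∧
        ∀ p : ℕ, p.Prime → 8 * K ^ 2 < p → ¬ p ∣ r.den) ∧
    (∀ n k K p : ℕ, 1 ≤ K → 576 * K ^ 6 ≤ n → k ≤ K ^ n → p.Prime → 8 * K ^ 2 < p →
      (p - 1) ∣ n → ∀ T : Fin k → Cube n, IsTiling T → ∀ s : Fin k → ℚ,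
        (∀ q, (T q).side = s q) →
        k ≡ 1 + (Finset.univ.filter (fun q => (p : ℤ) ∣ (s q).num)).card [MOD p]) ∧
    (∀ n K c : ℕ, 1 ≤ K → 576 * K ^ 6 ≤ n → (n + 1).Prime → IsCutoff n c → c < K ^ n →
      ∃ k ≤ K ^ n, ∃ T : Fin k → Cube n, IsTiling T ∧
        ∃ q, ∃ r : ℚ, (T q).side = r ∧ ((n + 1 : ℕ) : ℤ) ∣ r.num) ∧
    (∃ c : ℕ → ℕ, ∀ n, 0 < n → IsCutoffN n (c n)) ∧
    (∀ c : ℕ → ℕ, (∀ n, 0 < n → IsCutoffN n (c n)) →
      (∀ ε : ℝ, 0 < ε → ∃ᶠ n : ℕ in atTop, Real.log (c n) ≤ ε * (n * Real.log n)) ∧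
      (∃ᶠ n : ℕ in atTop, (1 / 7 : ℝ) * (n * Real.log n) ≤ Real.log (c n)) ∧
      ¬ ∃ γ : ℝ, Tendsto (fun n : ℕ => Real.log (c n) / (n * Real.log n)) atTop (𝓝 γ)) := by
  refine ⟨fun n k K hK hn hk T hT q => side_rat hK hn hk T hT q,
    fun n k K p hK hn hk hp hpK hpn T hT s hs => count_all hK hn hk hp hpK hpn T hT s hs,
    fun n K c hK hn hp hc hlt => exotic_of_small hK hn hp hc hlt, ?_,
    fun c hc => ⟨lower_limit_N c hc, upper_limit_N c hc, no_limit_N c hc⟩⟩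
  have h : ∀ n : ℕ, ∃ c, 0 < n → IsCutoffN n c := by
    intro n
    rcases Nat.eq_zero_or_pos n with h0 | h0
    · exact ⟨0, fun h => by omega⟩
    · obtain ⟨c, hc⟩ := exists_cutoffN h0
      exact ⟨c, fun _ => hc⟩
  choose c hc using h
  exact ⟨c, fun n hn => hc n hn⟩

end Pool.Agent.Results.MP_9df71a_co.DenominatorRigidity
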