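import Mathlib
import Pool.Prelude.Def_F_cef2bd1b
import Pool.Agent.Helper274.CT.BoxMain
import Pool.Agent.Helper274.CT.GuilModel

set_option autoImplicit false

/-!
Guillotine decompositions of the unit `n`-cube (obtained by successive straight cuts of boxes).
A guillotine decomposition in at most `K ^ n` cubes, `n ≥ 34000 K ^ 6`, has only rational sides
`a / b` for which all prime factors of `a` and `b` are at most `32 K ^ 2`.  Consequently the
guillotine cutoff `c` satisfies `liminf log c(n) / (n log n) = 0` and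
`limsup log c(n) / (n log n) ≥ 1 / 7`.
-/

open Filter Topology N0a8789b9 Pool.Agent.H274C Pool.Agent.H17HN

namespace Pool.Agent.Results.MP_9df71a_co.GuillotineModel

theorem not_consecutive {n a : ℕ} (hn : 1 ≤ n) (h1 : a ≡ 1 [MOD (n + 1)])
    (h2 : a + 1 ≡ 1 [MOD (n + 1)]) : False := by
  have h3 : a ≡ a + 1 [MOD (n + 1)] := h1.trans h2.symm
  have h4 := (Nat.modEq_iff_dvd' (by omega : a ≤ a + 1)).mp h3
  have h5 : a + 1 - a = 1 := by omega
  rw [h5, Nat.dvd_one] at h4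
  omega

theorem gadm_count {n k K p : ℕ} (hK : 1 ≤ K) (hn : 34000 * K ^ 6 ≤ n) (hk : k ≤ K ^ n)
    (hp : p.Prime) (hpK : 32 * K ^ 2 < p) (hpn : (p - 1) ∣ n) (h : GAdmissible n k) :
    k ≡ 1 [MOD p] := by
  obtain ⟨L, hL, hLk⟩ := h
  rw [← hLk] at hk ⊢
  exact guil_count hK hn L hL hk p hp hpK hpn

/-- The lower bound for the guillotine cutoff. -/
theorem lower_G {n K c : ℕ} (hK : 1 ≤ K) (hn : 34000 * K ^ 6 ≤ n) (hp : (n + 1).Prime)
    (hc : IsGCutoff n c) : K ^ n ≤ c := by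
  by_contra hlt
  rw [not_le] at hlt
  have hK6 : 1 ≤ K ^ 6 := Nat.one_le_pow _ _ hK
  have h2 : K ^ 2 ≤ K ^ 6 := Nat.pow_le_pow_right hK (by norm_num)
  have key : ∀ k, c ≤ k → k ≤ K ^ n → k ≡ 1 [MOD (n + 1)] := by
    intro k hck hk
    exact gadm_count hK hn hk hp (by omega) (by simp) (hc.1 k hck)
  exact not_consecutive (by omega) (key c le_rfl hlt.le) (key (c + 1) (by omega) (by omega))

theorem exists_K {n : ℕ} (hn : 2176000 ^ 7 ≤ n) : ∃ K : ℕ, 1 ≤ K ∧ 34000 * K ^ 6 ≤ n ∧ n ≤ K ^ 7 := by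
  set x : ℝ := (n : ℝ) ^ ((1 : ℝ) / 7) with hx
  have hn0 : (0 : ℝ) ≤ n := Nat.cast_nonneg n
  have hx7 : x ^ 7 = n := by
    rw [hx, ← Real.rpow_natCast, ← Real.rpow_mul hn0]
    norm_num
  have hx0 : 0 ≤ x := Real.rpow_nonneg hn0 _
  have hxl : (2176000 : ℝ) ≤ x := by
    by_contra h
    rw [not_le] at h
    have h1 : x ^ 7 < (2176000 : ℝ) ^ 7 := pow_lt_pow_left₀ h hx0 (by norm_num)
    have h2 : ((2176000 : ℝ)) ^ 7 ≤ n := by exact_mod_cast hn
    linarith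
  refine ⟨⌊x⌋₊ + 1, by omega, ?_, ?_⟩
  · have h1 : ((⌊x⌋₊ + 1 : ℕ) : ℝ) ≤ 2 * x := by
      push_cast
      have := Nat.floor_le hx0
      linarith
    have h2 : (((34000 * (⌊x⌋₊ + 1) ^ 6 : ℕ)) : ℝ) ≤ n := by
      have h3 : ((⌊x⌋₊ + 1 : ℕ) : ℝ) ^ 6 ≤ (2 * x) ^ 6 :=
        pow_le_pow_left₀ (Nat.cast_nonneg _) h1 6
      have h4 : (2 * x) ^ 6 = 64 * x ^ 6 := by ring
      have h5 : (2176000 : ℝ) * x ^ 6 ≤ x ^ 7 := by
        have : x ^ 7 = x * x ^ 6 := by ring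
        rw [this]
        exact mul_le_mul_of_nonneg_right hxl (by positivity)
      rw [Nat.cast_mul, Nat.cast_pow, ← hx7]
      norm_num at h3 h4 ⊢
      nlinarith
    exact_mod_cast h2
  · have h1 : x ≤ ((⌊x⌋₊ + 1 : ℕ) : ℝ) := by
      push_cast
      exact (Nat.lt_floor_add_one x).le
    have h2 : (n : ℝ) ≤ (((⌊x⌋₊ + 1) ^ 7 : ℕ) : ℝ) := by
      rw [Nat.cast_pow, ← hx7]
      exact pow_le_pow_left₀ hx0 h1 7
    exact_mod_cast h2

theorem upper_limit_G (c : ℕ → ℕ) (hc : ∀ n, 0 < n → IsGCutoff n (c n)) :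
    ∃ᶠ n : ℕ in atTop, (1 / 7 : ℝ) * (n * Real.log n) ≤ Real.log (c n) := by
  rw [frequently_atTop]
  intro a
  obtain ⟨p, hpl, hp⟩ := Nat.exists_infinite_primes (max a (2176000 ^ 7) + 1)
  refine ⟨p - 1, ?_, ?_⟩
  · have := le_max_left a (2176000 ^ 7)
    omega
  · set n := p - 1 with hn
    have hp1 : p = n + 1 := by omega
    have hnl : 2176000 ^ 7 ≤ n := by
      have := le_max_right a (2176000 ^ 7)
      omega
    have hn0 : 0 < n := lt_of_lt_of_le (by norm_num) hnl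
    obtain ⟨K, hK, h1, h2⟩ := exists_K hnl
    have h3 := lower_G hK h1 (hp1 ▸ hp) (hc n hn0)
    have hnr : (0 : ℝ) < n := by exact_mod_cast hn0
    have hKr : (0 : ℝ) < K := by exact_mod_cast hK
    have h4 : Real.log n ≤ 7 * Real.log K := by
      have : (n : ℝ) ≤ (K : ℝ) ^ 7 := by exact_mod_cast h2
      have h5 := Real.log_le_log hnr this
      rw [Real.log_pow] at h5
      exact_mod_cast h5
    have h6 : (n : ℝ) * Real.log K ≤ Real.log (c n) := by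
      have h7 : ((K : ℝ)) ^ n ≤ c n := by exact_mod_cast h3
      have h8 := Real.log_le_log (by positivity) h7
      rwa [Real.log_pow] at h8
    nlinarith

theorem log_gcutoff_le {n A c : ℕ} (hn : 1 ≤ n) (hA : 2 ≤ A) (hg : gg n A = 1)
    (hc : IsGCutoff n c) : Real.log c ≤ n * Real.log (2 * A) := by
  have h1 := gcutoff_le hn hA hg hc
  have h2 := gcutoff_pos hc
  have h3 : (0 : ℝ) < c := by exact_mod_cast h2
  have h4 : (c : ℝ) ≤ (2 * (A : ℝ)) ^ n := by exact_mod_cast h1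
  calc Real.log c ≤ Real.log ((2 * (A : ℝ)) ^ n) := Real.log_le_log h3 h4
    _ = _ := by rw [Real.log_pow]

theorem lower_limit_G (c : ℕ → ℕ) (hc : ∀ n, 0 < n → IsGCutoff n (c n)) (ε : ℝ) (hε : 0 < ε) :
    ∃ᶠ n : ℕ in atTop, Real.log (c n) ≤ ε * (n * Real.log n) := by
  rw [frequently_atTop]
  intro a
  obtain ⟨j, hj⟩ := exists_nat_gt (2 / ε)
  have hj0 : (0 : ℝ) < j := lt_trans (by positivity) hj
  have hj1 : 1 ≤ j := by exact_mod_cast hj0
  obtain ⟨N, hN⟩ := exists_nat_gt (Real.exp (2 * Real.log 2 / ε))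
  obtain ⟨l, hl, hlp, A, hA, hAl, hg⟩ := gg_one_seq j hj1 (max a N)
  refine ⟨l, le_trans (le_max_left _ _) hl.le, ?_⟩
  have hNl : N < l := lt_of_le_of_lt (le_max_right _ _) hl
  have hl0 : (0 : ℝ) < l := by exact_mod_cast hlp.pos
  have hA0 : (0 : ℝ) < A := by
    have : 0 < A := by omega
    exact_mod_cast this
  have h1 := log_gcutoff_le hlp.one_lt.le hA hg (hc l hlp.pos)
  have h2 : (j : ℝ) * Real.log A ≤ Real.log l := by
    rw [← Real.log_pow]
    apply Real.log_le_log (by positivity)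
    exact_mod_cast hAl
  have h3 : 2 * Real.log 2 / ε ≤ Real.log l := by
    rw [Real.le_log_iff_exp_le hl0]
    have : (N : ℝ) < l := by exact_mod_cast hNl
    linarith
  have hlogl : 0 ≤ Real.log l := Real.log_natCast_nonneg l
  have hlogA : 0 ≤ Real.log A := Real.log_natCast_nonneg A
  have h4 : Real.log A ≤ ε / 2 * Real.log l := by
    have h5 : 2 / ε * Real.log A ≤ Real.log l :=
      le_trans (mul_le_mul_of_nonneg_right hj.le hlogA) h2
    have h6 : Real.log A = ε / 2 * (2 / ε * Real.log A) := by field_simp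
    rw [h6]
    exact mul_le_mul_of_nonneg_left h5 (by positivity)
  have h7 : Real.log 2 ≤ ε / 2 * Real.log l := by
    rw [div_le_iff₀ hε] at h3
    linarith
  rw [Real.log_mul (by norm_num) hA0.ne'] at h1
  calc Real.log (c l) ≤ l * (Real.log 2 + Real.log A) := h1
    _ ≤ l * (ε * Real.log l) := by
      apply mul_le_mul_of_nonneg_left _ hl0.le
      linarith
    _ = ε * (l * Real.log l) := by ring

theorem no_limit_G (c : ℕ → ℕ) (hc : ∀ n, 0 < n → IsGCutoff n (c n)) :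
    ¬ ∃ γ : ℝ, Tendsto (fun n : ℕ => Real.log (c n) / (n * Real.log n)) atTop (𝓝 γ) := by
  rintro ⟨γ, h⟩
  have hpos : ∀ n : ℕ, 2 ≤ n → 0 < (n : ℝ) * Real.log n := by
    intro n hn
    have h2 : (2 : ℝ) ≤ n := by exact_mod_cast hn
    exact mul_pos (by linarith) (Real.log_pos (by linarith))
  have h1 : γ ≤ 1 / 14 := by
    refine le_of_tendsto_of_frequently h ?_
    have h2 := (lower_limit_G c hc (1 / 14) (by norm_num)).and_eventually (eventually_ge_atTop 2)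
    refine h2.mono ?_
    rintro n ⟨h3, h4⟩
    rw [div_le_iff₀ (hpos n h4)]
    exact h3
  have h2 : 1 / 7 ≤ γ := by
    refine ge_of_tendsto_of_frequently h ?_
    have h2 := (upper_limit_G c hc).and_eventually (eventually_ge_atTop 2)
    refine h2.mono ?_
    rintro n ⟨h3, h4⟩
    rw [le_div_iff₀ (hpos n h4)]
    exact h3
  linarith

/-- Every side of a guillotine decomposition in at most `K ^ n` cubes is a rational number whose
numerator and denominator have no prime factor above `32 K ^ 2`. -/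
theorem guil_side {n K : ℕ} (hK : 1 ≤ K) (hn : 34000 * K ^ 6 ≤ n)
    (L : List (Cube n)) (hL : Guillotine (fun _ => 0) (fun _ => 1) L)
    (hk : L.length ≤ K ^ n) (Q : Cube n) (hQ : Q ∈ L) :
    ∃ r : ℚ, Q.side = r ∧
      ∀ p : ℕ, p.Prime → 32 * K ^ 2 < p → ¬ p ∣ r.den ∧ ¬ (p : ℤ) ∣ r.num := by
  obtain ⟨i, rfl⟩ := List.mem_iff_get.mp hQ
  obtain ⟨p0, hp0, hp0p⟩ := Nat.exists_infinite_primes (32 * K ^ 2 + 1)
  obtain ⟨r, hr, _⟩ := guil_rigid hK hn L hL hk p0 hp0p (by omega) i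
  refine ⟨r, hr, ?_⟩
  intro p hp hpK
  obtain ⟨r', hr', hd⟩ := guil_rigid hK hn L hL hk p hp hpK i
  have : r = r' := by
    have h := hr.symm.trans hr'
    exact_mod_cast h
  rwa [this]

/-- The box version, with natural `K`. -/
theorem box_side {n k K : ℕ} (hK : 1 ≤ K) (hn : 576 * K ^ 6 ≤ n) (hk : k ≤ K ^ n)
    (D : Fin n → ℝ) (hD : ∀ j, 0 < D j) (T : Fin k → Cube n) (hT : BoxTiling D T)
    (H : AddSubgroup ℝ) (hDH : ∀ j, D j ∈ H)
    (hH : ∀ z : ℝ, ∀ m : ℕ, 0 < m → m ≤ 8 * K ^ 2 → m • z ∈ H → z ∈ H) :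
    ∀ q, (T q).side ∈ H := by
  have hK6 : 1 ≤ K ^ 6 := Nat.one_le_pow _ _ hK
  have hKr : (1 : ℝ) ≤ K := by exact_mod_cast hK
  refine sides_mem_box (by omega) D hD T hT H hDH K hKr (by exact_mod_cast hk)
    (8 * K ^ 2 + 1) (by push_cast; linarith) ?_ ?_
  · have h1 : (576 : ℝ) * K ^ 6 ≤ n := by exact_mod_cast hn
    have h2 : (K : ℝ) ^ 4 ≤ K ^ 6 := pow_le_pow_right₀ hKr (by norm_num)
    push_cast
    nlinarith
  · intro z m hm hmJ h
    exact hH z m hm (by omega) h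

/-- See the claim file. -/
theorem result :
    (∀ (n k K : ℕ), 1 ≤ K → 576 * K ^ 6 ≤ n → k ≤ K ^ n → ∀ D : Fin n → ℝ, (∀ j, 0 < D j) →
      ∀ T : Fin k → Cube n, BoxTiling D T → ∀ H : AddSubgroup ℝ, (∀ j, D j ∈ H) →
        (∀ z : ℝ, ∀ m : ℕ, 0 < m → m ≤ 8 * K ^ 2 → m • z ∈ H → z ∈ H) →
          ∀ q, (T q).side ∈ H) ∧
    (∀ n K : ℕ, 1 ≤ K → 34000 * K ^ 6 ≤ n → ∀ L : List (Cube n),
      Guillotine (fun _ => 0) (fun _ => 1) L → L.length ≤ K ^ n → ∀ Q ∈ L,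
        ∃ r : ℚ, Q.side = r ∧
          ∀ p : ℕ, p.Prime → 32 * K ^ 2 < p → ¬ p ∣ r.den ∧ ¬ (p : ℤ) ∣ r.num) ∧
    (∀ n k K p : ℕ, 1 ≤ K → 34000 * K ^ 6 ≤ n → k ≤ K ^ n → p.Prime → 32 * K ^ 2 < p →
      (p - 1) ∣ n → GAdmissible n k → k ≡ 1 [MOD p]) ∧
    (∀ n K c : ℕ, 1 ≤ K → 34000 * K ^ 6 ≤ n → (n + 1).Prime → IsGCutoff n c → K ^ n ≤ c) ∧
    (∀ n k : ℕ, GAdmissible n k → Admissible n k) ∧
    (∃ c : ℕ → ℕ, ∀ n, 0 < n → IsGCutoff n (c n)) ∧
    (∀ c : ℕ → ℕ, (∀ n, 0 < n → IsGCutoff n (c n)) →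
      (∀ ε : ℝ, 0 < ε → ∃ᶠ n : ℕ in atTop, Real.log (c n) ≤ ε * (n * Real.log n)) ∧
      (∃ᶠ n : ℕ in atTop, (1 / 7 : ℝ) * (n * Real.log n) ≤ Real.log (c n)) ∧
      ¬ ∃ γ : ℝ, Tendsto (fun n : ℕ => Real.log (c n) / (n * Real.log n)) atTop (𝓝 γ)) := by
  refine ⟨fun n k K hK hn hk D hD T hT H hDH hH => box_side hK hn hk D hD T hT H hDH hH,
    fun n K hK hn L hL hk Q hQ => guil_side hK hn L hL hk Q hQ,
    fun n k K p hK hn hk hp hpK hpn h => gadm_count hK hn hk hp hpK hpn h,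
    fun n K c hK hn hp hc => lower_G hK hn hp hc, ?_, ?_,
    fun c hc => ⟨lower_limit_G c hc, upper_limit_G c hc, no_limit_G c hc⟩⟩
  · rintro n k ⟨L, hL, rfl⟩
    exact ⟨L.get, guil_isTiling hL⟩
  · have h : ∀ n : ℕ, ∃ c, 0 < n → IsGCutoff n c := by
      intro n
      rcases Nat.eq_zero_or_pos n with h0 | h0
      · exact ⟨0, fun h => by omega⟩
      · obtain ⟨c, hc⟩ := exists_gcutoff h0
        exact ⟨c, fun _ => hc⟩
    choose c hc using h
    exact ⟨c, fun n hn => hc n hn⟩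

end Pool.Agent.Results.MP_9df71a_co.GuillotineModel
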