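import Mathlib
import Pool.Prelude.Def_F_cef2bd1b
import Pool.Agent.H17HN.Tiling

set_option autoImplicit false

/-!
The lower limit of `log c(n) / (n log n)` is zero, so the limit, if it exists, is zero;
`c(n) ≤ n ^ ((1/2 + ε) n)` for large odd `n`.
-/

open Filter Topology N0a8789b9 Pool.Agent.H17HN

namespace Pool.Agent.Results.MP_9df71a_co.LimitZero

theorem log_cutoff_le {n A c : ℕ} (hn : 1 ≤ n) (hA : 2 ≤ A) (hg : gg n A = 1)
    (hc : IsCutoff n c) : Real.log c ≤ n * Real.log (2 * A) := by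
  have h1 := cutoff_le hn hA hg hc
  have h2 := cutoff_pos hc
  have h3 : (0 : ℝ) < c := by exact_mod_cast h2
  have h4 : (c : ℝ) ≤ (2 * (A : ℝ)) ^ n := by exact_mod_cast h1
  calc Real.log c ≤ Real.log ((2 * (A : ℝ)) ^ n) := Real.log_le_log h3 h4
    _ = _ := by rw [Real.log_pow]

theorem lower_limit (c : ℕ → ℕ) (hc : ∀ n, 0 < n → IsCutoff n (c n)) (ε : ℝ) (hε : 0 < ε) :
    ∃ᶠ n : ℕ in atTop, Real.log (c n) ≤ ε * (n * Real.log n) := by
  rw [frequently_atTop]
  intro a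
  obtain ⟨j, hj⟩ := exists_nat_gt (2 / ε)
  have hj0 : (0 : ℝ) < j := lt_trans (by positivity) hj
  have hj1 : 1 ≤ j := by exact_mod_cast hj0
  obtain ⟨N, hN⟩ := exists_nat_gt (Real.exp (2 * Real.log 2 / ε))
  obtain ⟨l, hl, hlp, A, hA, hAl, hg⟩ := gg_one_seq j hj1 (max a N)
  refine ⟨l, le_trans (le_max_left _ _) hl.le, ?_⟩
  have hNl : N < l := lt_of_le_of_lt (le_max_right _ _) hl
  have hl0 : (0 : ℝ) < l := by exact_mod_cast hlp.pos
  have hA0 : (0 : ℝ) < A := by
    have : 0 < A := by omega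
    exact_mod_cast this
  have h1 := log_cutoff_le hlp.one_lt.le hA hg (hc l hlp.pos)
  have h2 : (j : ℝ) * Real.log A ≤ Real.log l := by
    rw [← Real.log_pow]
    apply Real.log_le_log (by positivity)
    exact_mod_cast hAl
  have h3 : 2 * Real.log 2 / ε ≤ Real.log l := by
    rw [Real.le_log_iff_exp_le hl0]
    have : (N : ℝ) < l := by exact_mod_cast hNl
    linarith
  have hlogl : 0 ≤ Real.log l := Real.log_natCast_nonneg l
  have hlogA : 0 ≤ Real.log A := Real.log_natCast_nonneg A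
  have h4 : Real.log A ≤ ε / 2 * Real.log l := by
    have h5 : 2 / ε * Real.log A ≤ Real.log l :=
      le_trans (mul_le_mul_of_nonneg_right hj.le hlogA) h2
    have h6 : Real.log A = ε / 2 * (2 / ε * Real.log A) := by field_simp
    rw [h6]
    exact mul_le_mul_of_nonneg_left h5 (by positivity)
  have h7 : Real.log 2 ≤ ε / 2 * Real.log l := by
    rw [div_le_iff₀ hε] at h3
    linarith
  rw [Real.log_mul (by norm_num) hA0.ne'] at h1
  calc Real.log (c l) ≤ l * (Real.log 2 + Real.log A) := h1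
    _ ≤ l * (ε * Real.log l) := by
      apply mul_le_mul_of_nonneg_left _ hl0.le
      linarith
    _ = ε * (l * Real.log l) := by ring

theorem limit_zero (c : ℕ → ℕ) (hc : ∀ n, 0 < n → IsCutoff n (c n)) (γ : ℝ)
    (h : Tendsto (fun n : ℕ => Real.log (c n) / (n * Real.log n)) atTop (𝓝 γ)) : γ = 0 := by
  apply le_antisymm
  · apply le_of_forall_pos_le_add
    intro ε hε
    rw [zero_add]
    refine le_of_tendsto_of_frequently h ?_
    have h1 := (lower_limit c hc ε hε).and_eventually (eventually_ge_atTop 2)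
    refine h1.mono ?_
    rintro n ⟨h2, h3⟩
    have hn : (2 : ℝ) ≤ n := by exact_mod_cast h3
    have hpos : 0 < (n : ℝ) * Real.log n := mul_pos (by linarith) (Real.log_pos (by linarith))
    rw [div_le_iff₀ hpos]
    exact h2
  · refine ge_of_tendsto' h ?_
    intro n
    exact div_nonneg (Real.log_natCast_nonneg _)
      (mul_nonneg (Nat.cast_nonneg n) (Real.log_natCast_nonneg n))

theorem upper (c : ℕ → ℕ) (hc : ∀ n, 0 < n → IsCutoff n (c n)) (θ ε : ℝ) (hθ : 1 / 2 ≤ θ)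
    (hε : 0 < ε) : ∀ᶠ n : ℕ in atTop, (PP n : ℝ) ≤ ((n : ℝ) + 1) ^ θ →
      Real.log (c n) ≤ (θ + ε) * (n * Real.log n) := by
  obtain ⟨C, hC3, hC⟩ := gg_eq_one
  obtain ⟨N, hN⟩ := exists_nat_gt (Real.exp (Real.log (4 * C * 2 ^ θ) / ε))
  filter_upwards [eventually_ge_atTop (max N 1)] with n hn hP
  have hNn : N ≤ n := le_trans (le_max_left _ _) hn
  have hn1 : 1 ≤ n := le_trans (le_max_right _ _) hn
  have hn1' : (1 : ℝ) ≤ n := by exact_mod_cast hn1
  have hθ0 : 0 < θ := by linarith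
  set T : ℝ := ((n : ℝ) + 1) ^ θ with hT
  have hT1 : 1 ≤ T := Real.one_le_rpow (by linarith) hθ0.le
  set A : ℕ := ⌈C * T⌉₊ + 1 with hA
  have hA1 : C * T < A := by
    rw [hA]
    push_cast
    linarith [Nat.le_ceil (C * T)]
  have hA2 : (A : ℝ) ≤ 2 * C * T := by
    rw [hA]
    push_cast
    have := Nat.ceil_lt_add_one (show 0 ≤ C * T by positivity)
    nlinarith
  have hsq : √(n : ℝ) ≤ T := by
    rw [Real.sqrt_eq_rpow, hT]
    calc (n : ℝ) ^ ((1 : ℝ) / 2) ≤ ((n : ℝ) + 1) ^ ((1 : ℝ) / 2) :=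
          Real.rpow_le_rpow (by linarith) (by linarith) (by norm_num)
      _ ≤ _ := Real.rpow_le_rpow_of_exponent_le (by linarith) hθ
  have hPA : PP n ≤ A := by
    have : (PP n : ℝ) ≤ A := by nlinarith
    exact_mod_cast this
  have hCA : C * √(n : ℝ) < A := lt_of_le_of_lt (by gcongr) hA1
  have hg := hC n hn1 A hPA hCA
  have hA3 : 2 ≤ A := by
    have : (2 : ℝ) < A := by nlinarith
    exact_mod_cast this.le
  have h1 := log_cutoff_le hn1 hA3 hg (hc n hn1)
  have hTle : T ≤ 2 ^ θ * (n : ℝ) ^ θ := by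
    rw [hT, ← Real.mul_rpow (by norm_num) (by linarith)]
    exact Real.rpow_le_rpow (by linarith) (by linarith) hθ0.le
  have hn0 : (0 : ℝ) < n := by linarith
  have h2 : Real.log (2 * A) ≤ Real.log (4 * C * 2 ^ θ) + θ * Real.log n := by
    rw [← Real.log_rpow hn0, ← Real.log_mul (by positivity) (by positivity)]
    apply Real.log_le_log (by positivity)
    calc 2 * (A : ℝ) ≤ 2 * (2 * C * T) := by linarith
      _ ≤ 2 * (2 * C * (2 ^ θ * (n : ℝ) ^ θ)) := by gcongr
      _ = _ := by ring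
  have h3 : Real.log (4 * C * 2 ^ θ) ≤ ε * Real.log n := by
    have h4 : Real.log (4 * C * 2 ^ θ) / ε ≤ Real.log n := by
      rw [Real.le_log_iff_exp_le hn0]
      have : (N : ℝ) ≤ n := by exact_mod_cast hNn
      linarith
    rw [div_le_iff₀ hε] at h4
    linarith
  calc Real.log (c n) ≤ n * Real.log (2 * A) := h1
    _ ≤ n * ((θ + ε) * Real.log n) := by
      apply mul_le_mul_of_nonneg_left _ hn0.le
      linarith
    _ = _ := by ring

theorem PP_odd {n : ℕ} (hn : Odd n) : PP n = 2 := by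
  have hn1 : 1 ≤ n := hn.pos
  obtain ⟨hp, hd⟩ := PP_mem hn1
  rcases hp.eq_two_or_odd' with h | h
  · exact h
  · exfalso
    have h2 : 2 ∣ PP n - 1 := by
      obtain ⟨k, hk⟩ := h
      rw [hk]
      exact ⟨k, by omega⟩
    have h3 : 2 ∣ n := dvd_trans h2 hd
    obtain ⟨k, hk⟩ := hn
    omega

/-- For every sequence `c` of cube-tiling cutoffs: the lower limit of `log c(n) / (n log n)` is
at most every `ε > 0`; a limit of this sequence can only be `0`; if the largest prime `p` with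
`p - 1 ∣ n` is at most `(n + 1) ^ θ`, where `θ ≥ 1/2`, and `n` is large, then
`c(n) ≤ n ^ ((θ + ε) n)`; in particular `c(n) ≤ n ^ ((1/2 + ε) n)` for large odd `n`. -/
theorem result (c : ℕ → ℕ) (hc : ∀ n, 0 < n → IsCutoff n (c n)) :
    (∀ ε : ℝ, 0 < ε → ∃ᶠ n : ℕ in atTop, Real.log (c n) ≤ ε * (n * Real.log n)) ∧
    (∀ γ : ℝ, Tendsto (fun n : ℕ => Real.log (c n) / (n * Real.log n)) atTop (𝓝 γ) → γ = 0) ∧
    (∀ ε : ℝ, 0 < ε → ∀ᶠ n : ℕ in atTop, Odd n →
      Real.log (c n) ≤ (1 / 2 + ε) * (n * Real.log n)) ∧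
    (∀ θ ε : ℝ, 1 / 2 ≤ θ → 0 < ε → ∀ᶠ n : ℕ in atTop,
      (∀ p : ℕ, p.Prime → (p - 1) ∣ n → (p : ℝ) ≤ ((n : ℝ) + 1) ^ θ) →
      Real.log (c n) ≤ (θ + ε) * (n * Real.log n)) := by
  refine ⟨lower_limit c hc, limit_zero c hc, ?_, ?_⟩
  · intro ε hε
    filter_upwards [upper c hc (1 / 2) ε (le_refl _) hε, eventually_ge_atTop 3] with n hn h3 hodd
    apply hn
    rw [PP_odd hodd, ← Real.sqrt_eq_rpow]
    apply Real.le_sqrt_of_sq_le
    have : (3 : ℝ) ≤ n := by exact_mod_cast h3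
    push_cast
    linarith
  · intro θ ε hθ hε
    filter_upwards [upper c hc θ ε hθ hε, eventually_ge_atTop 1] with n hn h1 hP
    obtain ⟨hp, hd⟩ := PP_mem h1
    exact hn (hP _ hp hd)

end Pool.Agent.Results.MP_9df71a_co.LimitZero
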